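import Mathlib

set_option autoImplicit false

namespace Pool.Agent.TH260.J722

theorem inv_norm {n : ℕ} (M : (Fin n → ℚ) ≃ₗ[ℚ] (Fin n → ℚ))
    (h : ∃ C : ℝ, ∀ (k : ℤ) (x : Fin n → ℚ) (i : Fin n),
        |(((M ^ k) x i : ℚ) : ℝ)| ≤ C * ∑ j, |((x j : ℚ) : ℝ)|) :
    ∃ (N : (Fin n → ℚ) → ℝ) (C : ℝ), 0 < C ∧ (∀ x y, N (x + y) ≤ N x + N y) ∧
      (∀ x, N (-x) = N x) ∧ (∀ (k : ℤ) x, N ((M ^ k) x) = N x) ∧
      (∀ x i, |((x i : ℚ) : ℝ)| ≤ N x) ∧ (∀ x, N x ≤ C * ∑ j, |((x j : ℚ) : ℝ)|) := by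
  obtain ⟨C, hC⟩ := h
  let f : (Fin n → ℚ) → ℤ → ℝ := fun x k => ∑ i, |(((M ^ k) x i : ℚ) : ℝ)|
  have hpos : ∀ x : Fin n → ℚ, 0 ≤ ∑ j, |((x j : ℚ) : ℝ)| := fun x =>
    Finset.sum_nonneg fun _ _ => abs_nonneg _
  have hf : ∀ x k, f x k ≤ ((n : ℝ) * |C| + 1) * ∑ j, |((x j : ℚ) : ℝ)| := by
    intro x k
    have h1 : f x k ≤ ∑ _i : Fin n, |C| * ∑ j, |((x j : ℚ) : ℝ)| := by
      apply Finset.sum_le_sum
      intro i _
      exact (hC k x i).trans (mul_le_mul_of_nonneg_right (le_abs_self C) (hpos x))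
    rw [Finset.sum_const, Finset.card_univ, Fintype.card_fin, nsmul_eq_mul] at h1
    have := hpos x
    nlinarith
  have hbdd : ∀ x, BddAbove (Set.range (f x)) := by
    intro x
    refine ⟨((n : ℝ) * |C| + 1) * ∑ j, |((x j : ℚ) : ℝ)|, ?_⟩
    rintro _ ⟨k, rfl⟩
    exact hf x k
  refine ⟨fun x => ⨆ k, f x k, (n : ℝ) * |C| + 1, by positivity, ?_, ?_, ?_, ?_, ?_⟩
  · intro x y
    apply ciSup_le
    intro k
    refine le_trans ?_ (add_le_add (le_ciSup (hbdd x) k) (le_ciSup (hbdd y) k))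
    show f (x + y) k ≤ f x k + f y k
    simp only [f, map_add, Pi.add_apply, Rat.cast_add]
    rw [← Finset.sum_add_distrib]
    exact Finset.sum_le_sum fun i _ => abs_add_le _ _
  · intro x
    have : f (-x) = f x := by
      funext k
      simp [f]
    show (⨆ l, f (-x) l) = ⨆ l, f x l
    rw [this]
  · intro k x
    have : (f ((M ^ k) x)) = (f x) ∘ (fun l => l + k) := by
      funext l
      simp only [f, Function.comp]
      rw [zpow_add]
      rfl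
    show (⨆ l, f ((M ^ k) x) l) = ⨆ l, f x l
    rw [this]
    exact (Equiv.addRight k).surjective.iSup_comp (f x)
  · intro x i
    refine le_trans ?_ (le_ciSup (hbdd x) 0)
    show |((x i : ℚ) : ℝ)| ≤ f x 0
    simp only [f, zpow_zero, LinearEquiv.coe_one, id]
    exact Finset.single_le_sum (f := fun i => |((x i : ℚ) : ℝ)|)
      (fun _ _ => abs_nonneg _) (Finset.mem_univ i)
  · intro x
    exact ciSup_le (hf x)

end Pool.Agent.TH260.J722
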