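import Mathlib
import Pool.Agent.TH109.Core

set_option autoImplicit false

namespace Pool.Agent.TH260.J723
open Pool.Agent.TH109

theorem mem_aux {H : Type} [CommGroup H] (K : Subgroup H) (x : H) :
    ((QuotientGroup.mk x : H ⧸ K).out)⁻¹ * x ∈ K := by
  have := QuotientGroup.eq.mp (Quotient.out_eq' (QuotientGroup.mk x : H ⧸ K) :
    (QuotientGroup.mk ((QuotientGroup.mk x : H ⧸ K).out) : H ⧸ K) = QuotientGroup.mk x)
  exact this

theorem mk_aux {H : Type} [CommGroup H] (K : Subgroup H) (q : H ⧸ K) (k : K) :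
    (QuotientGroup.mk (q.out * (k : H)) : H ⧸ K) = q := by
  have h1 : (QuotientGroup.mk (q.out * (k : H)) : H ⧸ K) = QuotientGroup.mk q.out := by
    rw [QuotientGroup.eq]
    simp
  rw [h1]
  exact Quotient.out_eq' q

theorem fin_aux {H : Type} [CommGroup H] {A B : Subgroup H} (φ : A ≃* B) (b : B) (r s : H) :
    (HNNExtension.of ((b : H) * r) : HNNExtension H A B φ)⁻¹ * HNNExtension.t *
      HNNExtension.of (((φ.symm b : A) : H) * s) =
    (HNNExtension.of r)⁻¹ * HNNExtension.t * HNNExtension.of s := by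
  have ht : HNNExtension.t * HNNExtension.of ((φ.symm b : A) : H) =
      HNNExtension.of (b : H) * (HNNExtension.t : HNNExtension H A B φ) := by
    rw [HNNExtension.t_mul_of]
    simp
  rw [map_mul, map_mul, mul_inv_rev]
  calc _ = (HNNExtension.of r : HNNExtension H A B φ)⁻¹ * ((HNNExtension.of (b : H))⁻¹ *
      (HNNExtension.t * HNNExtension.of ((φ.symm b : A) : H))) * HNNExtension.of s := by
        simp only [mul_assoc]
    _ = _ := by rw [ht, inv_mul_cancel_left]

theorem hnn_adj {H : Type} [CommGroup H] {A B : Subgroup H} (φ : A ≃* B)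
    (hA : A.index ≠ 0) (hAB : A.index = B.index) :
    ∃ (β : H ≃ H) (Q1 : Set (HNNExtension H A B φ)), Q1.Finite ∧
      ∀ x, (HNNExtension.of x)⁻¹ * HNNExtension.t * HNNExtension.of (β x) ∈ Q1 := by
  classical
  have hfa : Finite (H ⧸ A) := by
    apply Nat.finite_of_card_ne_zero
    exact hA
  have hfb : Finite (H ⧸ B) := by
    apply Nat.finite_of_card_ne_zero
    show B.index ≠ 0
    rw [← hAB]; exact hA
  have hc : Nat.card (H ⧸ B) = Nat.card (H ⧸ A) := hAB.symm
  obtain ⟨e⟩ : Nonempty ((H ⧸ B) ≃ (H ⧸ A)) := ⟨(Finite.card_eq.mp hc).some⟩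
  let f : H → H := fun x =>
    (e (QuotientGroup.mk x)).out *
      ((φ.symm ⟨((QuotientGroup.mk x : H ⧸ B).out)⁻¹ * x, mem_aux B x⟩ : A) : H)
  let g : H → H := fun y =>
    (e.symm (QuotientGroup.mk y)).out *
      ((φ ⟨((QuotientGroup.mk y : H ⧸ A).out)⁻¹ * y, mem_aux A y⟩ : B) : H)
  have hgf : ∀ x, g (f x) = x := by
    intro x
    have h1 : (QuotientGroup.mk (f x) : H ⧸ A) = e (QuotientGroup.mk x) := mk_aux A _ _
    have h2 : (⟨((QuotientGroup.mk (f x) : H ⧸ A).out)⁻¹ * f x, mem_aux A (f x)⟩ : A) =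
        φ.symm ⟨((QuotientGroup.mk x : H ⧸ B).out)⁻¹ * x, mem_aux B x⟩ := by
      apply Subtype.ext
      show ((QuotientGroup.mk (f x) : H ⧸ A).out)⁻¹ * f x = _
      rw [h1]
      simp only [f]
      rw [inv_mul_cancel_left]
    show (e.symm (QuotientGroup.mk (f x))).out *
      ((φ ⟨((QuotientGroup.mk (f x) : H ⧸ A).out)⁻¹ * f x, mem_aux A (f x)⟩ : B) : H) = x
    rw [h2, h1]
    simp
  have hfg : ∀ y, f (g y) = y := by
    intro y
    have h1 : (QuotientGroup.mk (g y) : H ⧸ B) = e.symm (QuotientGroup.mk y) := mk_aux B _ _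
    have h2 : (⟨((QuotientGroup.mk (g y) : H ⧸ B).out)⁻¹ * g y, mem_aux B (g y)⟩ : B) =
        φ ⟨((QuotientGroup.mk y : H ⧸ A).out)⁻¹ * y, mem_aux A y⟩ := by
      apply Subtype.ext
      show ((QuotientGroup.mk (g y) : H ⧸ B).out)⁻¹ * g y = _
      rw [h1]
      simp only [g]
      rw [inv_mul_cancel_left]
    show (e (QuotientGroup.mk (g y))).out *
      ((φ.symm ⟨((QuotientGroup.mk (g y) : H ⧸ B).out)⁻¹ * g y, mem_aux B (g y)⟩ : A) : H) = y
    rw [h2, h1]
    simp
  refine ⟨⟨f, g, hgf, hfg⟩, Set.range (fun q : H ⧸ B =>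
    (HNNExtension.of q.out)⁻¹ * HNNExtension.t * HNNExtension.of (e q).out), Set.finite_range _, ?_⟩
  intro x
  refine ⟨QuotientGroup.mk x, ?_⟩
  show (HNNExtension.of (QuotientGroup.mk x : H ⧸ B).out)⁻¹ * HNNExtension.t *
      HNNExtension.of (e (QuotientGroup.mk x)).out =
    (HNNExtension.of x)⁻¹ * HNNExtension.t * HNNExtension.of (f x)
  set b : B := ⟨((QuotientGroup.mk x : H ⧸ B).out)⁻¹ * x, mem_aux B x⟩ with hb
  have hx : x = (b : H) * (QuotientGroup.mk x : H ⧸ B).out := by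
    rw [hb]
    simp
  have hfx : f x = ((φ.symm b : A) : H) * (e (QuotientGroup.mk x)).out := by
    rw [mul_comm]
  have h := fin_aux φ b (QuotientGroup.mk x : H ⧸ B).out (e (QuotientGroup.mk x)).out
  rw [← hfx, ← hx] at h
  exact h.symm

end Pool.Agent.TH260.J723
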