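import Mathlib
import Pool.Agent.TH109.Core

set_option autoImplicit false

namespace Pool.Agent.TH260.J721
open Pool.Agent.TH109

/-- translations and the linear map, as permutations of `ℚⁿ` -/
noncomputable def trans {n : ℕ} : Multiplicative (Fin n → ℤ) →* Equiv.Perm (Fin n → ℚ) where
  toFun x := Equiv.addLeft (fun i => ((Multiplicative.toAdd x i : ℤ) : ℚ))
  map_one' := by
    ext y i
    simp
  map_mul' x z := by
    ext y i
    simp [add_assoc]

theorem hnn_cocycle {n : ℕ} {A B : Subgroup (Multiplicative (Fin n → ℤ))} (φ : A ≃* B)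
    (M : (Fin n → ℚ) ≃ₗ[ℚ] (Fin n → ℚ))
    (hφ : ∀ x : A, (fun i => ((Multiplicative.toAdd (φ x : Multiplicative (Fin n → ℤ)) i : ℤ) : ℚ)) =
      M (fun i => ((Multiplicative.toAdd (x : Multiplicative (Fin n → ℤ)) i : ℤ) : ℚ)))
    (tau : HNNExtension (Multiplicative (Fin n → ℤ)) A B φ → ℤ)
    (tau_mul : ∀ g h, tau (g * h) = tau g + tau h) (tau_of : ∀ x, tau (HNNExtension.of x) = 0)
    (tau_t : tau HNNExtension.t = 1) :
    ∃ X : HNNExtension (Multiplicative (Fin n → ℤ)) A B φ → (Fin n → ℚ),
      (∀ g h, X (g * h) = X g + (M ^ (tau g)) (X h)) ∧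
      (∀ x, X (HNNExtension.of x) = fun i => ((Multiplicative.toAdd x i : ℤ) : ℚ)) ∧
      X HNNExtension.t = 0 := by
  let F : HNNExtension (Multiplicative (Fin n → ℤ)) A B φ →* Equiv.Perm (Fin n → ℚ) :=
    HNNExtension.lift trans M.toEquiv (by
      intro a
      ext y i
      have h := congrFun (hφ a) i
      simp only [trans, Equiv.Perm.coe_mul, Function.comp, MonoidHom.coe_mk, OneHom.coe_mk,
        Equiv.coe_addLeft, LinearEquiv.coe_toEquiv, map_add, Pi.add_apply]
      rw [← h])
  have hof : ∀ x y, F (HNNExtension.of x) y = (fun i => ((Multiplicative.toAdd x i : ℤ) : ℚ)) + y := by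
    intro x y
    simp only [F, HNNExtension.lift_of]
    rfl
  have ht : ∀ y, F HNNExtension.t y = M y := by
    intro y
    simp only [F, HNNExtension.lift_t]
    rfl
  have tau_one : tau 1 = 0 := by
    have := tau_mul 1 1
    rw [mul_one] at this
    omega
  have tau_inv : ∀ g, tau g⁻¹ = - tau g := by
    intro g
    have := tau_mul g⁻¹ g
    rw [inv_mul_cancel, tau_one] at this
    omega
  have key : ∀ g y, F g y = F g 0 + (M ^ (tau g)) y := by
    intro g
    induction g using HNNExtension.induction_on with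
    | of x =>
      intro y
      rw [hof, hof, tau_of]
      simp
    | t =>
      intro y
      rw [ht, ht, tau_t]
      simp
    | mul g h ihg ihh =>
      intro y
      rw [map_mul, Equiv.Perm.mul_apply, Equiv.Perm.mul_apply, ihg (F h y), ihg (F h 0), ihh y,
        map_add, tau_mul, zpow_add, add_assoc]
      rfl
    | inv g ih =>
      intro y
      rw [map_inv, tau_inv]
      have h1 : ∀ z, (F g)⁻¹ z = (M ^ (- tau g)) (z - F g 0) := by
        intro z
        rw [Equiv.Perm.inv_eq_iff_eq, ih]
        have : (M ^ tau g) ((M ^ (- tau g)) (z - F g 0)) = z - F g 0 := by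
          rw [← LinearEquiv.mul_apply, ← zpow_add]
          simp
        rw [this]
        abel
      rw [h1, h1 0, ← map_add]
      congr 1
      abel
  refine ⟨fun g => F g 0, ?_, ?_, ?_⟩
  · intro g h
    show F (g * h) 0 = _
    rw [map_mul, Equiv.Perm.mul_apply, key g (F h 0)]
  · intro x
    show F (HNNExtension.of x) 0 = _
    rw [hof, add_zero]
  · show F HNNExtension.t 0 = 0
    rw [ht, map_zero]

end Pool.Agent.TH260.J721
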